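import Pool.Agent.Q20.SI.Stm
import Pool.Agent.Q20.RS.Cnt

/-!
# Comparison of the leading coefficients of the L-functions of a linear character and its inflation
-/

set_option autoImplicit false
set_option linter.unusedSectionVars false
set_option linter.unusedVariables false

namespace Pool.Agent.Q123.SI

open NumberField IsDedekindDomain Filter Topology Pool.Agent.H921R2.TatePole Pool.Agent.W353.NF
  Pool.Agent.Q5.BR Pool.Agent.H541R3.ART Pool.Agent.Q92.AR Pool.Agent.Q20.RS Pool.Agent.Q20.SI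

/-! ### the trailing coefficient of `1 - c q^(-s)` -/

theorem an_fac (q : ℕ) (hq : 2 ≤ q) (c : ℂ) (s : ℂ) :
    AnalyticAt ℂ (fun s : ℂ => 1 - c * (q : ℂ) ^ (-s)) s := by
  have hq0 : (q : ℂ) ≠ 0 := by exact_mod_cast (by omega : q ≠ 0)
  have hd : Differentiable ℂ (fun s : ℂ => 1 - c * (q : ℂ) ^ (-s)) := by
    intro s
    exact (differentiableAt_const _).sub
      ((differentiableAt_const _).mul ((differentiableAt_id.neg).const_cpow (Or.inl hq0)))
  exact hd.analyticAt s

theorem trail_fac (q : ℕ) (hq : 2 ≤ q) (c : ℂ) :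
    meromorphicTrailingCoeffAt (fun s : ℂ => 1 - c * (q : ℂ) ^ (-s)) 0 =
      if c = 1 then ((Real.log q : ℝ) : ℂ) else 1 - c := by
  have hq0 : (q : ℂ) ≠ 0 := by exact_mod_cast (by omega : q ≠ 0)
  split_ifs with hc
  · subst hc
    simp only [one_mul]
    have ha : AnalyticAt ℂ (fun s : ℂ => 1 - (q : ℂ) ^ (-s)) 0 := by
      have := an_fac q hq 1 0
      simpa only [one_mul] using this
    have hdv : HasDerivAt (fun s : ℂ => 1 - (q : ℂ) ^ (-s)) (Complex.log q) 0 := by
      have h1 : HasDerivAt (fun s : ℂ => (q : ℂ) ^ (-s)) ((q : ℂ) ^ (-(0 : ℂ)) * Complex.log q * (-1)) 0 :=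
        (hasDerivAt_neg (0 : ℂ)).const_cpow (Or.inl hq0)
      have h2 := h1.const_sub 1
      refine h2.congr_deriv ?_
      rw [neg_zero, Complex.cpow_zero]
      ring
    obtain ⟨p, hp⟩ := ha
    have hg : AnalyticAt ℂ (dslope (fun s : ℂ => 1 - (q : ℂ) ^ (-s)) 0) 0 :=
      ⟨_, hp.has_fpower_series_dslope_fslope⟩
    have h0 : dslope (fun s : ℂ => 1 - (q : ℂ) ^ (-s)) 0 0 = ((Real.log q : ℝ) : ℂ) := by
      rw [dslope_same, hdv.deriv, Complex.natCast_log]
    have hne : dslope (fun s : ℂ => 1 - (q : ℂ) ^ (-s)) 0 0 ≠ 0 := by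
      rw [h0]
      exact_mod_cast (Real.log_pos (by exact_mod_cast hq)).ne'
    rw [hg.meromorphicTrailingCoeffAt_of_ne_zero_of_eq_nhdsNE (n := 1) hne, h0]
    filter_upwards [self_mem_nhdsWithin] with z hz
    rw [dslope_of_ne _ hz, zpow_one, sub_smul_slope]
    simp
  · have hv : 1 - c * (q : ℂ) ^ (-(0 : ℂ)) = 1 - c := by
      rw [neg_zero, Complex.cpow_zero, mul_one]
    exact ((an_fac q hq c 0).meromorphicTrailingCoeffAt_of_ne_zero (by
      change 1 - c * (q : ℂ) ^ (-(0 : ℂ)) ≠ 0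
      rw [hv]
      exact sub_ne_zero.2 (Ne.symm hc))).trans hv

section
variable {F M N : Type} [Field F] [NumberField F] [Field M] [NumberField M] [Field N] [NumberField N]
    [Algebra F M] [Algebra F N] [Algebra M N] [IsScalarTower F M N] [IsGalois F M] [IsGalois F N]

/-- restriction of Frobenius elements -/
theorem isFrb_restrict {v : HeightOneSpectrum (𝓞 F)} {g : N ≃ₐ[F] N} (hg : IsFrobenius v g) :
    IsFrobenius v (AlgEquiv.restrictNormalHom M g) := by
  obtain ⟨w, hwm, hwv, hw⟩ := hg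
  have hwp : w.IsPrime := hwm.isPrime
  have hc : (w.comap (algebraMap (𝓞 M) (𝓞 N))).comap (algebraMap (𝓞 F) (𝓞 M)) = v.asIdeal := by
    rw [← hwv, Ideal.comap_comap]
    congr 1
    ext x
    change algebraMap M N (algebraMap F M x) = algebraMap F N x
    exact (IsScalarTower.algebraMap_apply F M N _).symm
  have hp : (w.comap (algebraMap (𝓞 M) (𝓞 N))).IsPrime := Ideal.comap_isPrime _ _
  have h0 : w.comap (algebraMap (𝓞 M) (𝓞 N)) ≠ ⊥ := by
    intro h
    apply v.ne_bot
    rw [← hc, h, ← RingHom.ker_eq_comap_bot]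
    exact (RingHom.injective_iff_ker_eq_bot _).1 (FaithfulSMul.algebraMap_injective (𝓞 F) (𝓞 M))
  refine ⟨_, hp.isMaximal h0, hc, fun x => ?_⟩
  obtain ⟨y, hy, hyx⟩ := hw (algebraMap (𝓞 M) (𝓞 N) x)
  have hgx : IsIntegral ℤ (AlgEquiv.restrictNormalHom M g (x : M)) := x.2.map _
  obtain ⟨b, hb⟩ : ∃ b : 𝓞 M, (b : M) = AlgEquiv.restrictNormalHom M g (x : M) := ⟨⟨_, hgx⟩, rfl⟩
  refine ⟨b - x ^ Ideal.absNorm v.asIdeal, ?_, by rw [← hb]; rfl⟩
  rw [Ideal.mem_comap]
  have h1 : algebraMap (𝓞 M) (𝓞 N) (b - x ^ Ideal.absNorm v.asIdeal) = y := by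
    apply RingOfIntegers.ext
    rw [hyx]
    change algebraMap M N ((b : M) - (x : M) ^ Ideal.absNorm v.asIdeal) =
      g (algebraMap M N (x : M)) - (algebraMap M N (x : M)) ^ Ideal.absNorm v.asIdeal
    rw [map_sub, map_pow, hb]
    congr 1
    exact AlgEquiv.restrictNormal_commutes g M (x : M)
  rw [h1]
  exact hy

theorem restrict_frob (hab : ∀ a b : M ≃ₐ[F] M, a * b = b * a) {v : HeightOneSpectrum (𝓞 F)}
    (hv : Unramified M v) : AlgEquiv.restrictNormalHom M (frob N v) = frob M v := by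
  obtain ⟨h, hh⟩ := isFrobenius_conj hv (isFrb_restrict (M := M) (frob_spec (M := N) v))
    (frob_spec (M := M) v)
  rw [hh, hab h⁻¹, mul_assoc, inv_mul_cancel, mul_one]

end

theorem lfn : S_LFN := by
  classical
  intro F M N _ _ _ _ _ _ _ _ _ _ _ _ hab T T' hT hR hT' hR' hTT χ E hE
  -- the factors
  have hq2 : ∀ v : HeightOneSpectrum (𝓞 F), 2 ≤ Ideal.absNorm v.asIdeal := fun v => two_le_nm v
  have hnorm : ∀ (v : HeightOneSpectrum (𝓞 F)) (s : ℂ), 1 < s.re →
      ‖cf χ (frob M v) * (Ideal.absNorm v.asIdeal : ℂ) ^ (-s)‖ < 1 := by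
    intro v s hs
    rw [norm_mul]
    have h1 : ‖cf χ (frob M v)‖ = 1 := norm_char χ _
    rw [h1, one_mul, Complex.norm_natCast_cpow_of_pos (by have := hq2 v; omega), Complex.neg_re]
    exact Real.rpow_lt_one_of_one_lt_of_neg (by
      have := hq2 v
      exact_mod_cast (by omega : 1 < Ideal.absNorm v.asIdeal)) (by linarith)
  have key : ∀ s : ℂ, 1 < s.re → artinLS T' (cf (up N χ)) s =
      artinLS T (cf χ) s * ∏ v ∈ E, (1 - cf χ (frob M v) * (Ideal.absNorm v.asIdeal : ℂ) ^ (-s)) := by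
    intro s hs
    have hS := lTerm_summable T (cf χ) hs
    have hS' := lTerm_summable T' (cf (up N χ)) hs
    -- the primes in `E`
    have hEs : ∀ v ∈ E, HasSum (fun n => lTerm T (cf χ) s (v, n))
        (-Complex.log (1 - cf χ (frob M v) * (Ideal.absNorm v.asIdeal : ℂ) ^ (-s))) := by
      intro v hv
      refine (hasSum_log (hnorm v s hs)).congr_fun fun n => ?_
      rw [lTerm_of_not ((hE v).1 hv).2, cpow_succ_mul, div_mul_eq_div_div_swap, div_inv_eq_mul,
        mul_pow]
      congr 2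
      change ((χ (frob M v ^ (n + 1)) : ℂˣ) : ℂ) = ((χ (frob M v) : ℂˣ) : ℂ) ^ (n + 1)
      rw [map_pow, Units.val_pow_eq_pow_val]
    have hsplit : ∀ x : HeightOneSpectrum (𝓞 F) × ℕ, lTerm T (cf χ) s x =
        lTerm T' (cf (up N χ)) s x + (if x.1 ∈ E then lTerm T (cf χ) s x else 0) := by
      rintro ⟨v, n⟩
      by_cases h1 : InS T v
      · have h2 : v ∉ E := fun h => ((hE v).1 h).2 h1
        rw [lTerm_of_mem h1, lTerm_of_mem (hTT v h1), if_neg h2, add_zero]
      · by_cases h2 : InS T' v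
        · have h3 : v ∈ E := (hE v).2 ⟨h2, h1⟩
          rw [lTerm_of_mem h2, if_pos h3, zero_add]
        · have h3 : v ∉ E := fun h => h2 ((hE v).1 h).1
          rw [if_neg h3, add_zero, lTerm_of_not h1, lTerm_of_not h2]
          congr 1
          change ((χ (frob M v ^ (n + 1)) : ℂˣ) : ℂ) =
            ((χ (AlgEquiv.restrictNormalHom M (frob N v ^ (n + 1))) : ℂˣ) : ℂ)
          rw [map_pow (AlgEquiv.restrictNormalHom M), restrict_frob hab (unram_of_notInS hR h1)]
    have hif : Summable fun x : HeightOneSpectrum (𝓞 F) × ℕ =>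
        if x.1 ∈ E then lTerm T (cf χ) s x else 0 := by
      have h1 : (fun x : HeightOneSpectrum (𝓞 F) × ℕ =>
          if x.1 ∈ E then lTerm T (cf χ) s x else 0) =
          fun x => lTerm T (cf χ) s x - lTerm T' (cf (up N χ)) s x := by
        funext x
        have := hsplit x
        linear_combination -this
      rw [h1]
      exact hS.sub hS'
    have hsumE : ∑' x : HeightOneSpectrum (𝓞 F) × ℕ, (if x.1 ∈ E then lTerm T (cf χ) s x else 0) =
        ∑ v ∈ E, -Complex.log (1 - cf χ (frob M v) * (Ideal.absNorm v.asIdeal : ℂ) ^ (-s)) := by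
      have h2 := hif.hasSum.prod_fiberwise (g := fun v => if v ∈ E then
        -Complex.log (1 - cf χ (frob M v) * (Ideal.absNorm v.asIdeal : ℂ) ^ (-s)) else 0) (by
          intro v
          by_cases hv : v ∈ E
          · simp only [if_pos hv]
            exact hEs v hv
          · simp only [if_neg hv]
            exact hasSum_zero)
      have h3 : HasSum (fun v => if v ∈ E then
        -Complex.log (1 - cf χ (frob M v) * (Ideal.absNorm v.asIdeal : ℂ) ^ (-s)) else 0)
          (∑ v ∈ E, if v ∈ E then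
        -Complex.log (1 - cf χ (frob M v) * (Ideal.absNorm v.asIdeal : ℂ) ^ (-s)) else 0) :=
        hasSum_sum_of_ne_finset_zero fun v hv => if_neg hv
      rw [h2.unique h3]
      exact Finset.sum_congr rfl fun v hv => if_pos hv
    have hmain : ∑' x, lTerm T (cf χ) s x = ∑' x, lTerm T' (cf (up N χ)) s x +
        ∑ v ∈ E, -Complex.log (1 - cf χ (frob M v) * (Ideal.absNorm v.asIdeal : ℂ) ^ (-s)) := by
      rw [← hsumE, ← hS'.tsum_add hif]
      exact tsum_congr hsplit
    unfold artinLS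
    rw [hmain, Complex.exp_add, Complex.exp_sum, mul_assoc, ← Finset.prod_mul_distrib]
    rw [Finset.prod_eq_one, mul_one]
    intro v _
    rw [Complex.exp_neg, Complex.exp_log (one_sub_ne (hnorm v s hs)),
      inv_mul_cancel₀ (one_sub_ne (hnorm v s hs))]
  -- the continuations
  have ha := cont_spec (g := artinLS T (cf χ)) (lin_mem T χ)
  have hb := cont_spec (g := artinLS T' (cf (up N χ))) (lin_mem T' (up N χ))
  have hm : ∀ v ∈ E, ∀ s : ℂ, MeromorphicAt
      (fun s : ℂ => 1 - cf χ (frob M v) * (Ideal.absNorm v.asIdeal : ℂ) ^ (-s)) s := fun v _ s =>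
    (an_fac _ (hq2 v) _ s).meromorphicAt
  have hc : Continues (fun s : ℂ => ∏ v ∈ E, (1 - cf χ (frob M v) *
      (Ideal.absNorm v.asIdeal : ℂ) ^ (-s))) (fun s : ℂ => ∏ v ∈ E, (1 - cf χ (frob M v) *
      (Ideal.absNorm v.asIdeal : ℂ) ^ (-s))) :=
    ⟨fun s _ => MeromorphicAt.fun_prod fun v hv => hm v hv s, fun s _ => rfl⟩
  change meromorphicTrailingCoeffAt (cont (artinLS T' (cf (up N χ)))) 0 =
    meromorphicTrailingCoeffAt (cont (artinLS T (cf χ))) 0 * _
  have h1 : ∏ v ∈ E, (if χ (frb M v) = 1 then ((Real.log (Ideal.absNorm v.asIdeal) : ℝ) : ℂ)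
        else 1 - cf χ (frb M v)) = meromorphicTrailingCoeffAt
        (fun s : ℂ => ∏ v ∈ E, (1 - cf χ (frob M v) * (Ideal.absNorm v.asIdeal : ℂ) ^ (-s))) 0 := by
    rw [meromorphicTrailingCoeffAt_fun_prod fun v hv => hm v hv 0]
    refine Finset.prod_congr rfl fun v _ => ?_
    rw [trail_fac _ (hq2 v)]
    change (if χ (frob M v) = 1 then ((Real.log (Ideal.absNorm v.asIdeal) : ℝ) : ℂ)
        else 1 - cf χ (frob M v)) = _
    have h2 : cf χ (frob M v) = 1 ↔ χ (frob M v) = 1 := by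
      change ((χ (frob M v) : ℂˣ) : ℂ) = 1 ↔ _
      exact Units.val_eq_one
    by_cases h3 : χ (frob M v) = 1
    · rw [if_pos h3, if_pos (h2.2 h3)]
    · rw [if_neg h3, if_neg fun h => h3 (h2.1 h)]
  rw [h1, ← (ha.1 0 (Set.mem_univ _)).meromorphicTrailingCoeffAt_fun_mul (hc.1 0 (Set.mem_univ _))]
  refine meromorphicTrailingCoeffAt_congr_nhdsNE ?_
  exact hb.eventuallyEq (ha.mul hc) key 0

end Pool.Agent.Q123.SI
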