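import Pool.Agent.Q20.SI.Stm3
import Pool.Agent.Q15.GRNT
import Pool.Agent.Q92.AR.IndL

/-! Project SI of helper20, job NSP: primes fixed by a given element of the Galois group. -/

set_option autoImplicit false
set_option linter.unusedSectionVars false

namespace Pool.Agent.Q123.SI.Nsp

open NumberField IsDedekindDomain Pool.Agent.Q20.SI Pool.Agent.Q20.RS
open Pool.Agent.W401.Cheb Pool.Agent.W353.NF

theorem nsp : S_NSP := by
  intro F M _ _ _ _ _ _ g S
  classical
  let A := AlgebraicClosure F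
  have hIA : IsAlgClosed A := inferInstance
  have halg : Algebra.IsAlgebraic F M := inferInstance
  let ι : M →ₐ[F] A := IsAlgClosed.lift
  let E : IntermediateField F A := ι.fieldRange
  have hE : FiniteDimensional F E :=
    (AlgEquiv.ofInjectiveField ι).toLinearEquiv.finiteDimensional
  let e : M ≃ₐ[F] E := AlgEquiv.ofInjectiveField ι
  have he : ∀ x : M, ((e x : E) : A) = ι x := fun x => rfl
  let eg : E ≃ₐ[F] E := (e.symm.trans g).trans e
  let σ₀ : A ≃ₐ[F] A := eg.liftNormal A
  have hσ₀ : ∀ x : M, σ₀ (ι x) = ι (g x) := by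
    intro x
    have h1 := eg.liftNormal_commutes A (e x)
    have h2 : eg (e x) = e (g x) := by
      simp only [eg, AlgEquiv.trans_apply, AlgEquiv.symm_apply_apply]
    rw [h2] at h1
    exact h1
  have hO : IsOpen {σ : GK F | ∀ x : M, σ (ι x) = ι (g x)} := by
    have h1 : {σ : GK F | ∀ x : M, σ (ι x) = ι (g x)} =
        (fun σ : GK F => σ₀⁻¹ * σ) ⁻¹' (E.fixingSubgroup : Set (GK F)) := by
      ext σ
      constructor
      · intro h
        rw [Set.mem_preimage, SetLike.mem_coe, IntermediateField.mem_fixingSubgroup_iff]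
        rintro _ ⟨x, rfl⟩
        change σ₀⁻¹ (σ (ι x)) = ι x
        rw [h x, ← hσ₀ x, ← AlgEquiv.mul_apply, inv_mul_cancel, AlgEquiv.one_apply]
      · intro h x
        rw [Set.mem_preimage, SetLike.mem_coe, IntermediateField.mem_fixingSubgroup_iff] at h
        have h2 : σ₀⁻¹ (σ (ι x)) = ι x := h (ι x) ⟨x, rfl⟩
        have h3 := congrArg σ₀ h2
        rw [← AlgEquiv.mul_apply, mul_inv_cancel, AlgEquiv.one_apply, hσ₀] at h3
        exact h3
    rw [h1]
    exact (IntermediateField.fixingSubgroup_isOpen E).preimage (continuous_const_mul _)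
  obtain ⟨σ, hσ, v, hvS, Q, hQm, hQv, hQ⟩ :=
    (Pool.Agent.Q15.GR.frob_dense (S : Set (HeightOneSpectrum (𝓞 F))) S.finite_toSet).inter_open_nonempty
      _ hO ⟨σ₀, hσ₀⟩
  have hQp : Q.IsPrime := hQm.isPrime
  obtain ⟨P, hP1, hP2⟩ := Pool.Agent.Q92.AR.exists_pr (K := F) (F := M) hQm hQv ι
  refine ⟨P, by rw [hP1]; exact fun h => hvS h, ?_⟩
  have hN : Ideal.absNorm v.asIdeal ≠ 0 := by
    rw [Ne, Ideal.absNorm_eq_zero_iff]
    exact v.ne_bot
  have key : ∀ a b : 𝓞 M, (b : M) = g (a : M) → (b ∈ P.asIdeal ↔ a ∈ P.asIdeal) := by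
    intro a b hb
    rw [← hP2 b, ← hP2 a]
    have h1 : oi ι b = σ • oi ι a := by
      apply RingOfIntegers.ext
      change ι (b : M) = σ (ι (a : M))
      rw [hb, hσ]
    have h2 := hQ (oi ι a)
    rw [← h1] at h2
    rw [← Ideal.IsPrime.pow_mem_iff_mem hQp _ (Nat.pos_of_ne_zero hN) (r := oi ι a)]
    constructor
    · intro h3
      have := Q.sub_mem h3 h2
      rwa [sub_sub_cancel] at this
    · intro h3
      have := Q.add_mem h2 h3
      rwa [sub_add_cancel] at this
  apply HeightOneSpectrum.ext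
  ext b
  have h5 : b ∈ (pra g P).asIdeal ↔
      (RingOfIntegers.mapRingEquiv g.toRingEquiv).symm b ∈ P.asIdeal := Iff.rfl
  rw [h5]
  refine (key _ b ?_).symm
  change (b : M) = g (g.symm (b : M))
  rw [AlgEquiv.apply_symm_apply]

end Pool.Agent.Q123.SI.Nsp
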