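import Pool.Agent.Q20.SI.Stm5
import Pool.Agent.Q20.EX.Abs3
import Pool.Agent.Q111.EX.Unr

/-!
# Project SI of helper20, job UNK: the field of an everywhere unramified character is unramified
-/

set_option autoImplicit false
set_option linter.unusedSectionVars false
set_option linter.deprecated false
set_option warn.classDefReducibility false

namespace Pool.Agent.Q123.SI.Unk

open NumberField IsDedekindDomain Pool.Agent.Q20.RS Pool.Agent.Q20.SI Pool.Agent.Q20.EX
open Pool.Agent.Q20.LG

attribute [local instance] facAlg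

theorem unk : S_UNK := by
  intro K E M _ _ _ _ _ _ _ _ _ _ _ E' hfin j hE' ψ hsm χ hinf hχ hunr v
  have iX : FiniteDimensional K E' := hfin
  have iX2 : NumberField E' := nf E'
  have iM : FiniteDimensional K M := inferInstance
  have iL : FiniteDimensional K j.fieldRange :=
    inferInstanceAs (FiniteDimensional K (LinearMap.range j.toLinearMap))
  let ψ₀ : E'.fixingSubgroup →* ℂˣ := ψ
  obtain ⟨N, i1, i2, i3, i4, hle, -, hN⟩ := ram_const (X := E') ψ₀ hsm j.fieldRange
  -- no ramification at level `N`
  have hAR : ∀ w : HeightOneSpectrum (𝓞 N), ∀ g : E'.fixingSubgroup, Inert w (resN E' N g) →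
      ψ₀ g = 1 := by
    intro w g hg
    by_contra hne
    obtain ⟨u, hu⟩ := exists_place E' (w.under (𝓞 E'))
    obtain ⟨g', hg', hne'⟩ := hN (w.under (𝓞 E')) ⟨w, rfl, g, hg, hne⟩ u hu
    obtain ⟨p, hp, hup⟩ := hu.1
    have h1 : ψ.fn g' = 1 := hunr p hp u ⟨hup.nonneg, hup.zero, hup.mul, hup.add, hup.prime⟩ g'
      ⟨hg'.1, hg'.2⟩
    apply hne'
    apply Units.ext
    exact h1
  -- the algebra structures on `N`
  let jN : M →ₐ[K] N := j.codRestrict N.toSubalgebra fun x => hle ⟨x, rfl⟩
  let aM : Algebra M N := jN.toRingHom.toAlgebra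
  let aE : Algebra E N := (jN.toRingHom.comp (algebraMap E M)).toAlgebra
  have t1 : IsScalarTower E M N := IsScalarTower.of_algebraMap_eq fun _ => rfl
  have t2 : IsScalarTower K E N := IsScalarTower.of_algebraMap_eq fun x => by
    change algebraMap K N x = jN (algebraMap E M (algebraMap K E x))
    rw [← IsScalarTower.algebraMap_apply K E M, AlgHom.commutes]
  have gKN : IsGalois K N := ⟨⟩
  have gEN : IsGalois E N := IsGalois.tower_top_of_isGalois K E N
  have hjN : ∀ x : M, ((algebraMap M N x : N) : AlgebraicClosure K) = j x := fun _ => rfl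
  refine Pool.Agent.Q111.EX.unram_of_inert (F := E) (E := M) (M := N) v fun w _ γ hγ x => ?_
  -- the lift of the inertia element
  let γ' : N ≃ₐ[E'] N := AlgEquiv.ofRingEquiv (f := (γ : N ≃+* N)) fun z => by
    obtain ⟨e, he⟩ := (hE' _).1 z.2
    have h1 : algebraMap E' N z = algebraMap E N e := by
      apply Subtype.ext
      exact he.symm
    rw [h1]
    exact γ.commutes e
  obtain ⟨g, hg⟩ := resN_surjective (X := E') (N := N) γ'
  have hgw : Inert w (resN E' N g) := by
    rw [hg]
    exact hγ
  have h1 := hAR w g hgw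
  have h2 : ∀ z : N, ((γ z : N) : AlgebraicClosure K) = (g : Gal(AlgebraicClosure K/K)) z := by
    intro z
    rw [← resN_apply (X := E') (N := N) g z, hg]
    rfl
  have h3 : ∀ y : M, algebraMap M N ((AlgEquiv.restrictNormalHom M γ) y) = γ (algebraMap M N y) :=
    fun y => AlgEquiv.restrictNormal_commutes γ M y
  have h4 := hinf (AlgEquiv.restrictNormalHom M γ) g fun y => by
    rw [← hjN, h3, h2, hjN]
  have h5 : χ (AlgEquiv.restrictNormalHom M γ) = 1 := by
    apply Units.ext
    change cf χ (AlgEquiv.restrictNormalHom M γ) = 1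
    rw [h4]
    change ((ψ₀ g : ℂˣ) : ℂ) = 1
    rw [h1]
    rfl
  have h6 : AlgEquiv.restrictNormalHom M γ = 1 := hχ (h5.trans (map_one χ).symm)
  have h7 := h3 x
  rw [h6] at h7
  exact h7.symm

end Pool.Agent.Q123.SI.Unk
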